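import Pool.Agent.helper17.MLG.Spec

set_option autoImplicit false
set_option linter.unusedSectionVars false

namespace Pool.Agent.MLG

open MeasureTheory Set Filter Topology Module
open scoped ENNReal ContDiff

theorem NVA (hAVE : AVE_stmt) (hVBL : VBL_stmt) : NVA_stmt := by
  intro V _ _ _ _ _ _ hV v M hv hM
  obtain ⟨C, r₁, hC, hr₁, hA⟩ := hAVE V hV
  obtain ⟨κ₁, κ₂, r₂, hκ₁, hκ₂, hr₂, hB⟩ := hVBL V hV
  set r : ℝ := min (min r₁ r₂) (κ₁ * v / (2 * (C * κ₂ * M))) with hr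
  have hD : 0 < 2 * (C * κ₂ * M) := by positivity
  have hr0 : 0 < r := lt_min (lt_min hr₁ hr₂) (by positivity)
  have hrr₁ : r ≤ r₁ := (min_le_left _ _).trans (min_le_left _ _)
  have hrr₂ : r ≤ r₂ := (min_le_left _ _).trans (min_le_right _ _)
  have hrD : r * (2 * (C * κ₂ * M)) ≤ κ₁ * v := by
    have : r ≤ κ₁ * v / (2 * (C * κ₂ * M)) := min_le_right _ _
    rwa [le_div_iff₀ hD] at this
  set q : ℝ := r ^ finrank ℝ V with hq
  have hq0 : 0 < q := pow_pos hr0 _
  refine ⟨r, κ₁ * q / 4, hr0, by positivity, ?_⟩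
  intro A hAm hAv hper
  by_contra hcon
  push Not at hcon
  have key : ∀ x : V, ENNReal.ofReal (3 * (κ₁ * q / 4)) ≤ vol V (bl x r \ A) := by
    intro x
    have h1 : vol V (bl x r) ≤ vol V (bl x r ∩ A) + vol V (bl x r \ A) := measure_le_inter_add_sdiff _ _ _
    have h2 : vol V (bl x r ∩ A) ≤ ENNReal.ofReal (κ₁ * q / 4) := by
      rw [inter_comm]
      exact (hcon x).le
    have h3 := (hB x r hr0 hrr₂).1
    have h4 : ENNReal.ofReal (κ₁ * q / 4) + ENNReal.ofReal (3 * (κ₁ * q / 4)) ≤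
        ENNReal.ofReal (κ₁ * q / 4) + vol V (bl x r \ A) := by
      rw [← ENNReal.ofReal_add (by positivity) (by positivity)]
      have : κ₁ * q / 4 + 3 * (κ₁ * q / 4) = κ₁ * q := by ring
      rw [this]
      exact h3.trans (h1.trans (add_le_add h2 le_rfl))
    exact (ENNReal.add_le_add_iff_left ENNReal.ofReal_ne_top).1 h4
  have h1 := hA A hAm r hr0 hrr₁
  have h2 : ENNReal.ofReal (3 * (κ₁ * q / 4)) * vol V A ≤ ∫⁻ x in A, vol V (bl x r \ A) ∂(vol V) := by
    rw [← setLIntegral_const]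
    exact lintegral_mono fun x => key x
  have h3 : vol V (Metric.ball (1 : V) r) ≤ ENNReal.ofReal (κ₂ * q) := by
    have := (hB 1 r hr0 hrr₂).2
    have e : bl (1 : V) r = Metric.ball (1 : V) r := by
      unfold bl
      simp
    rwa [e] at this
  have h4 : ENNReal.ofReal (3 * (κ₁ * q / 4)) * ENNReal.ofReal v ≤
      ENNReal.ofReal (C * r) * ENNReal.ofReal (κ₂ * q) * ENNReal.ofReal M := by
    rw [← hAv]
    exact h2.trans (h1.trans (mul_le_mul' (mul_le_mul' le_rfl h3) hper))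
  rw [← ENNReal.ofReal_mul (by positivity), ← ENNReal.ofReal_mul (by positivity),
    ← ENNReal.ofReal_mul (by positivity), ENNReal.ofReal_le_ofReal_iff (by positivity)] at h4
  have h5 : C * r * (κ₂ * q) * M = r * (2 * (C * κ₂ * M)) / 2 * q := by ring
  rw [h5] at h4
  have h6 : 3 * (κ₁ * q / 4) * v = 3 * (κ₁ * v) / 4 * q := by ring
  rw [h6] at h4
  have h7 := le_of_mul_le_mul_right h4 hq0
  have h8 : 0 < κ₁ * v := by positivity
  linarith

end Pool.Agent.MLG
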